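import Pool.Agent.W_30d1b9s_h71.Kill

/-!
# MP_30d1b9_co, Circular Nim: `CN(2c+e,c+1)`, `2e ≤ c`, has no period `T·1`
-/

namespace Pool.Agent.W_30d1b9s_h71

open Pool.Agent.W_30d1b9_h50

variable {n c e T : ℕ} [NeZero n]

theorem sum_val (q : ZMod n → ℕ) (g : ℕ → ℕ) (hqg : ∀ x : ZMod n, q x = g x.val)
    (Pr : ℕ → Prop) [DecidablePred Pr] :
    ∑ x ∈ Finset.univ.filter (fun x : ZMod n => Pr x.val), q x =
      ∑ v ∈ (Finset.range n).filter Pr, g v := by
  refine Finset.sum_bij (fun x _ => x.val) (fun x hx => ?_) (fun x _ x' _ h => ?_)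
    (fun v hv => ?_) (fun x _ => hqg x)
  · exact Finset.mem_filter.2 ⟨Finset.mem_range.2 (ZMod.val_lt x), (Finset.mem_filter.1 hx).2⟩
  · exact ZMod.val_injective _ h
  · rw [Finset.mem_filter, Finset.mem_range] at hv
    refine ⟨(v : ZMod n), Finset.mem_filter.2 ⟨Finset.mem_univ _, ?_⟩, ?_⟩
    · rw [val_cast hv.1]
      exact hv.2
    · rw [val_cast hv.1]

theorem sum_union_le (g : ℕ → ℕ) (s t u : Finset ℕ) (h : ∀ v ∈ s, v ∈ t ∨ v ∈ u) :
    ∑ v ∈ s, g v ≤ ∑ v ∈ t, g v + ∑ v ∈ u, g v := by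
  rw [← Finset.sum_union_inter]
  refine (Finset.sum_le_sum_of_subset (f := g) (t := t ∪ u) fun v hv => ?_).trans
    (Nat.le_add_right _ _)
  rw [Finset.mem_union]
  exact h v hv

theorem lbA (he : 2 ≤ e) (hec : e ≤ c) (hn : n = 2 * c + e) (q : ZMod n → ℕ) (g : ℕ → ℕ)
    (hqg : ∀ x : ZMod n, q x = g x.val) (hq : IsP n (c + 1) q) :
    g 0 ≤ ∑ v ∈ Finset.Ico 1 c, g v + ∑ v ∈ Finset.Ico (c + 1) (2 * c + 1), g v := by
  have h := le_of_isP (n := n) (k := c + 1) (by omega) 0
    (Finset.univ.filter fun x : ZMod n => x.val = c ∨ 2 * c < x.val)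
    (by rw [Finset.mem_filter, ZMod.val_zero]; omega)
    (fun w hw => by
      rw [not_mem_window (g := c + e - 1) (by omega), ZMod.val_zero] at hw
      have hwn := ZMod.val_lt w
      rcases Nat.lt_or_ge c w.val with h1 | h1
      · refine ⟨((c + e : ℕ) : ZMod n), ?_, fun j hj _ => ?_⟩
        · rw [mem_window' (g := c + e - 1) (by omega), ZMod.val_zero, val_cast (by omega)]
          omega
        · have hj2 := (Finset.mem_filter.1 hj).2
          rename_i hjw
          rw [mem_window' (g := c + e - 1) (by omega)] at hjw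
          rw [mem_window' (g := c + e - 1) (by omega), val_cast (by omega)]
          have hjn := ZMod.val_lt j
          omega
      · refine ⟨0, ?_, fun j hj _ => ?_⟩
        · rw [mem_window' (g := c + e - 1) (by omega)]
          rw [ZMod.val_zero]
          omega
        · have hj2 := (Finset.mem_filter.1 hj).2
          rename_i hjw
          rw [mem_window' (g := c + e - 1) (by omega)] at hjw
          rw [mem_window' (g := c + e - 1) (by omega), ZMod.val_zero]
          have hjn := ZMod.val_lt j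
          omega) _ q le_rfl hq
  rw [hqg, ZMod.val_zero] at h
  refine h.trans ?_
  have e1 : Finset.univ.filter (fun j : ZMod n => j ≠ 0 ∧
      j ∉ Finset.univ.filter fun x : ZMod n => x.val = c ∨ 2 * c < x.val) =
      Finset.univ.filter (fun x : ZMod n => (fun v => v ≠ 0 ∧ ¬ (v = c ∨ 2 * c < v)) x.val) := by
    ext j
    simp only [Finset.mem_filter, Finset.mem_univ, true_and, ne_eq, ZMod.val_eq_zero]
  rw [e1, sum_val q g hqg (fun v => v ≠ 0 ∧ ¬ (v = c ∨ 2 * c < v))]
  refine sum_union_le g _ _ _ fun v hv => ?_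
  rw [Finset.mem_filter, Finset.mem_range] at hv
  rw [Finset.mem_Ico, Finset.mem_Ico]
  omega

theorem lbB (he : 2 ≤ e) (hec : e ≤ c) (hn : n = 2 * c + e) (q : ZMod n → ℕ) (g : ℕ → ℕ)
    (hqg : ∀ x : ZMod n, q x = g x.val) (hq : IsP n (c + 1) q) :
    g c ≤ ∑ v ∈ Finset.Ico 1 c, g v + ∑ v ∈ Finset.Ico (c + e) (2 * c + e), g v := by
  have h := le_of_isP (n := n) (k := c + 1) (by omega) ((c : ℕ) : ZMod n)
    (Finset.univ.filter fun x : ZMod n => x.val = 0 ∨ (c < x.val ∧ x.val < c + e))
    (by rw [Finset.mem_filter, val_cast (by omega)]; omega)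
    (fun w hw => by
      rw [not_mem_window (g := c + e - 1) (by omega), val_cast (by omega)] at hw
      have hwn := ZMod.val_lt w
      rcases Nat.lt_or_ge w.val (c + e) with h1 | h1
      · refine ⟨((c : ℕ) : ZMod n), ?_, fun j hj _ => ?_⟩
        · rw [mem_window' (g := c + e - 1) (by omega), val_cast (by omega)]
          omega
        · have hj2 := (Finset.mem_filter.1 hj).2
          rename_i hjw
          rw [mem_window' (g := c + e - 1) (by omega)] at hjw
          rw [mem_window' (g := c + e - 1) (by omega), val_cast (by omega)]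
          have hjn := ZMod.val_lt j
          omega
      · refine ⟨0, ?_, fun j hj _ => ?_⟩
        · rw [mem_window' (g := c + e - 1) (by omega), val_cast (by omega), ZMod.val_zero]
          omega
        · have hj2 := (Finset.mem_filter.1 hj).2
          rename_i hjw
          rw [mem_window' (g := c + e - 1) (by omega)] at hjw
          rw [mem_window' (g := c + e - 1) (by omega), ZMod.val_zero]
          have hjn := ZMod.val_lt j
          omega) _ q le_rfl hq
  rw [hqg, val_cast (by omega)] at h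
  refine h.trans ?_
  have e1 : Finset.univ.filter (fun j : ZMod n => j ≠ ((c : ℕ) : ZMod n) ∧
      j ∉ Finset.univ.filter fun x : ZMod n => x.val = 0 ∨ (c < x.val ∧ x.val < c + e)) =
      Finset.univ.filter (fun x : ZMod n =>
        (fun v => v ≠ c ∧ ¬ (v = 0 ∨ (c < v ∧ v < c + e))) x.val) := by
    ext j
    have e2 : j = ((c : ℕ) : ZMod n) ↔ j.val = c := by
      constructor
      · rintro rfl
        exact val_cast (by omega)
      · intro h
        rw [← h, ZMod.natCast_zmod_val]
    simp only [Finset.mem_filter, Finset.mem_univ, true_and, ne_eq, e2]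
  rw [e1, sum_val q g hqg (fun v => v ≠ c ∧ ¬ (v = 0 ∨ (c < v ∧ v < c + e)))]
  refine sum_union_le g _ _ _ fun v hv => ?_
  rw [Finset.mem_filter, Finset.mem_range] at hv
  rw [Finset.mem_Ico, Finset.mem_Ico]
  omega

theorem single_diff (I : Finset ℕ) (f g : ℕ → ℕ) (hle : ∀ v ∈ I, g v ≤ f v) {v : ℕ} (hv : v ∈ I) :
    f v + ∑ x ∈ I, g x ≤ g v + ∑ x ∈ I, f x := by
  rw [← Finset.add_sum_erase I g hv, ← Finset.add_sum_erase I f hv]
  have := Finset.sum_le_sum fun x (hx : x ∈ I.erase v) => hle x (Finset.mem_of_mem_erase hx)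
  omega

/-- the base position -/
def base (c e T : ℕ) (v : ℕ) : ℕ :=
  if v = 0 then (c - e + 1) * (T + 2 * c * T) + (e - 1) * (T + 2 * c * T) - (c - 1) * T
  else if v < c then T
  else if v = c then (c - e + 1) * (T + 2 * c * T) +
    ((T + e * (2 * c * T)) + (e - 2) * (T + 2 * c * T)) - (c - 1) * T
  else if v = 2 * c + 1 then T + e * (2 * c * T)
  else T + 2 * c * T

theorem no_period (he : 2 ≤ e) (hec : 2 * e ≤ c) (hn : n = 2 * c + e) (hT : 1 ≤ T)
    (hinv : ∀ p : ZMod n → ℕ, IsP n (c + 1) p → IsP n (c + 1) fun x => p x + T) : False := by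
  obtain ⟨K, hK⟩ : ∃ K, K = 2 * c * T := ⟨_, rfl⟩
  obtain ⟨f, hf⟩ : ∃ f, f = base c e T := ⟨_, rfl⟩
  have hf0 : f 0 = (c - e + 1) * (T + K) + (e - 1) * (T + K) - (c - 1) * T := by
    rw [hf, hK]; unfold base; rw [if_pos rfl]
  have hfI : ∀ v, 1 ≤ v → v < c → f v = T := fun v h1 h2 => by
    rw [hf]; unfold base; rw [if_neg (by omega), if_pos h2]
  have hfc : f c = (c - e + 1) * (T + K) + ((T + e * K) + (e - 2) * (T + K)) - (c - 1) * T := by
    rw [hf, hK]; unfold base; rw [if_neg (by omega), if_neg (by omega), if_pos rfl]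
  have hfr : f (2 * c + 1) = T + e * K := by
    rw [hf, hK]; unfold base
    rw [if_neg (by omega), if_neg (by omega), if_neg (by omega), if_pos rfl]
  have hfo : ∀ v, c < v → v ≠ 2 * c + 1 → f v = T + K := fun v h1 h2 => by
    rw [hf, hK]; unfold base
    rw [if_neg (by omega), if_neg (by omega), if_neg (by omega), if_neg h2]
  -- numerical facts
  have hKT : (c - 1) * T + (c - 1) * T ≤ K := by
    rw [hK, ← add_mul]
    exact Nat.mul_le_mul_right T (by omega)
  have hKe : e * K = K + (e - 1) * K := by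
    rw [show e = 1 + (e - 1) by omega, add_mul, one_mul, Nat.add_sub_cancel_left]
  have hM0 : T + K ≤ (c - e + 1) * (T + K) := Nat.le_mul_of_pos_left _ (by omega)
  have hL0 : (e - 1) * (T + K) = (e - 2) * (T + K) + (T + K) := by
    rw [show e - 1 = e - 2 + 1 by omega, add_mul, one_mul]
  have hLe : (e - 1) * (T + K) = (e - 1) * T + (e - 1) * K := mul_add _ _ _
  have heT : (e - 1) * T = (e - 2) * T + T := by
    rw [show e - 1 = e - 2 + 1 by omega, add_mul, one_mul]
  -- sums of the base position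
  have sL : ∑ v ∈ Finset.Ico (c + 1) (c + e), f v = (e - 1) * (T + K) := by
    rw [Finset.sum_congr rfl fun v hv => hfo v (by rw [Finset.mem_Ico] at hv; omega)
      (by rw [Finset.mem_Ico] at hv; omega), Finset.sum_const, Nat.card_Ico, smul_eq_mul]
    congr 1
    omega
  have sM : ∑ v ∈ Finset.Ico (c + e) (2 * c + 1), f v = (c - e + 1) * (T + K) := by
    rw [Finset.sum_congr rfl fun v hv => hfo v (by rw [Finset.mem_Ico] at hv; omega)
      (by rw [Finset.mem_Ico] at hv; omega), Finset.sum_const, Nat.card_Ico, smul_eq_mul]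
    congr 1
    omega
  have sR : ∑ v ∈ Finset.Ico (2 * c + 1) (2 * c + e), f v =
      (T + e * K) + (e - 2) * (T + K) := by
    rw [Finset.sum_eq_sum_Ico_succ_bot (by omega), hfr,
      Finset.sum_congr rfl fun v hv => hfo v (by rw [Finset.mem_Ico] at hv; omega)
      (by rw [Finset.mem_Ico] at hv; omega), Finset.sum_const, Nat.card_Ico, smul_eq_mul]
    congr 2
    omega
  obtain ⟨L0, hL0d⟩ : ∃ L0, L0 = (e - 1) * (T + K) := ⟨_, rfl⟩
  obtain ⟨M0, hM0d⟩ : ∃ M0, M0 = (c - e + 1) * (T + K) := ⟨_, rfl⟩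
  obtain ⟨R0, hR0d⟩ : ∃ R0, R0 = (T + e * K) + (e - 2) * (T + K) := ⟨_, rfl⟩
  rw [← hM0d, ← hL0d] at hf0
  rw [← hM0d, ← hR0d] at hfc
  rw [← hL0d] at sL
  rw [← hM0d] at sM hM0
  rw [← hR0d] at sR
  have hfT : ∀ v, c < v → T + K ≤ f v := fun v h1 => by
    by_cases h2 : v = 2 * c + 1
    · rw [h2, hfr]
      omega
    · rw [hfo v h1 h2]
  have hfT' : ∀ v, v < n → T ≤ f v := fun v h1 => by
    rcases Nat.eq_zero_or_pos v with h2 | h2
    · rw [h2, hf0]
      omega
    rcases Nat.lt_or_ge v c with h3 | h3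
    · rw [hfI v h2 h3]
    rcases eq_or_lt_of_le h3 with h4 | h4
    · rw [← h4, hfc]
      omega
    · have := hfT v h4
      omega
  have htop := top_isP hinv he (by omega) hn f hfI hfT' (by rw [sM, sL, hf0]; omega)
    (by rw [sM, sR, hfc]; omega) (by rw [sL, hfr]; omega)
  -- the second position
  obtain ⟨u, hu⟩ : ∃ u : ℕ → ℕ, ∀ v, u v = if e ≤ v ∧ v ≤ c - e then 0 else f v :=
    ⟨_, fun _ => rfl⟩
  have hu0 : ∀ v, e ≤ v → v ≤ c - e → u v = 0 := fun v h1 h2 => by rw [hu, if_pos ⟨h1, h2⟩]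
  have hu1 : ∀ v, ¬ (e ≤ v ∧ v ≤ c - e) → u v = f v := fun v h1 => by rw [hu, if_neg h1]
  have hule : ∀ v, u v ≤ f v := fun v => by
    rw [hu]
    split_ifs
    · exact Nat.zero_le _
    · exact le_rfl
  have hmv : Move n (c + 1) (fun x : ZMod n => f x.val) fun x => u x.val := by
    refine ⟨0, fun x hx => ?_, fun x => hule _, fun h => ?_⟩
    · rw [not_mem_window (g := c + e - 1) (by omega), ZMod.val_zero] at hx
      exact hu1 _ (by omega)
    · have h1 := congrFun h ((e : ℕ) : ZMod n)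
      beta_reduce at h1
      rw [val_cast (by omega), hu0 e le_rfl (by omega), hfI e (by omega) (by omega)] at h1
      omega
  have huN := (isP_iff _).1 htop _ hmv
  rw [isP_iff] at huN
  push Not at huN
  obtain ⟨q, hmvq, hqP⟩ := huN
  obtain ⟨w, hw1, hw2, hw3⟩ := hmvq
  obtain ⟨g, hg⟩ : ∃ g : ℕ → ℕ, ∀ v, g v = q (v : ZMod n) := ⟨_, fun _ => rfl⟩
  have hqg : ∀ x : ZMod n, q x = g x.val := fun x => by rw [hg, ZMod.natCast_zmod_val]
  obtain ⟨s, hs⟩ : ∃ s, s = w.val := ⟨_, rfl⟩
  have hsn : s < n := by rw [hs]; exact ZMod.val_lt w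
  have hkeep : ∀ v, v < n → (v < s ∧ s ≤ v + (c + e - 1)) ∨ s + (c + 1) ≤ v → g v = u v := by
    intro v hv h1
    rw [hg, hw1 (v : ZMod n) ((not_mem_window (g := c + e - 1) (by omega) _ _).2
      (by rw [val_cast hv, ← hs]; exact h1))]
    beta_reduce
    rw [val_cast hv]
  have hgu : ∀ v, v < n → g v ≤ u v := fun v hv => by
    have h1 := hw2 (v : ZMod n)
    beta_reduce at h1
    rw [val_cast hv] at h1
    rw [hg]
    exact h1
  have hgf : ∀ v, v < n → g v ≤ f v := fun v hv => (hgu v hv).trans (hule v)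
  have hge : g e = 0 := by
    have := hgu e (by omega)
    rw [hu0 e le_rfl (by omega)] at this
    omega
  have hgce : g (c - e) = 0 := by
    have := hgu (c - e) (by omega)
    rw [hu0 (c - e) (by omega) le_rfl] at this
    omega
  rcases Nat.lt_or_ge e s with hes | hes
  swap
  · -- direct, left
    refine (isP_iff _).1 htop q ⟨w, fun x hx => ?_, fun x => ?_, fun h => ?_⟩ hqP
    · rw [not_mem_window (g := c + e - 1) (by omega), ← hs] at hx
      have hxn := ZMod.val_lt x
      rw [hqg, hkeep _ hxn hx]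
      exact hu1 _ (by omega)
    · rw [hqg]
      exact hgf _ (ZMod.val_lt x)
    · have h1 := congrFun h ((e : ℕ) : ZMod n)
      beta_reduce at h1
      rw [hqg, val_cast (by omega), hge, hfI e (by omega) (by omega)] at h1
      omega
  rcases Nat.lt_or_ge s (2 * c) with hs2 | hs2
  swap
  · -- direct, right
    refine (isP_iff _).1 htop q ⟨w, fun x hx => ?_, fun x => ?_, fun h => ?_⟩ hqP
    · rw [not_mem_window (g := c + e - 1) (by omega), ← hs] at hx
      have hxn := ZMod.val_lt x
      rw [hqg, hkeep _ hxn hx]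
      exact hu1 _ (by omega)
    · rw [hqg]
      exact hgf _ (ZMod.val_lt x)
    · have h1 := congrFun h ((e : ℕ) : ZMod n)
      beta_reduce at h1
      rw [hqg, val_cast (by omega), hge, hfI e (by omega) (by omega)] at h1
      omega
  -- now `e < s < 2c`
  have sI : ∑ v ∈ Finset.Ico 1 c, g v ≤ (c - 1) * T := by
    refine (Finset.sum_le_sum (g := fun _ => T) fun v hv => ?_).trans
      (le_of_eq (by rw [Finset.sum_const, Nat.card_Ico, smul_eq_mul]))
    rw [Finset.mem_Ico] at hv
    rw [← hfI v hv.1 hv.2]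
    exact hgf v (by omega)
  obtain ⟨L, hL⟩ : ∃ L, L = ∑ v ∈ Finset.Ico (c + 1) (c + e), g v := ⟨_, rfl⟩
  obtain ⟨M, hM⟩ : ∃ M, M = ∑ v ∈ Finset.Ico (c + e) (2 * c + 1), g v := ⟨_, rfl⟩
  obtain ⟨R, hR⟩ : ∃ R, R = ∑ v ∈ Finset.Ico (2 * c + 1) (2 * c + e), g v := ⟨_, rfl⟩
  have hLle : L ≤ L0 := by
    rw [hL, ← sL]
    exact Finset.sum_le_sum fun v hv => hgf v (by rw [Finset.mem_Ico] at hv; omega)
  have hMle : M ≤ M0 := by
    rw [hM, ← sM]
    exact Finset.sum_le_sum fun v hv => hgf v (by rw [Finset.mem_Ico] at hv; omega)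
  have hRle : R ≤ R0 := by
    rw [hR, ← sR]
    exact Finset.sum_le_sum fun v hv => hgf v (by rw [Finset.mem_Ico] at hv; omega)
  have hLM : ∀ h : ℕ → ℕ, ∑ v ∈ Finset.Ico (c + 1) (2 * c + 1), h v =
      ∑ v ∈ Finset.Ico (c + 1) (c + e), h v + ∑ v ∈ Finset.Ico (c + e) (2 * c + 1), h v :=
    fun h => (Finset.sum_Ico_consecutive h (by omega) (by omega)).symm
  have hMR : ∀ h : ℕ → ℕ, ∑ v ∈ Finset.Ico (c + e) (2 * c + e), h v =
      ∑ v ∈ Finset.Ico (c + e) (2 * c + 1), h v + ∑ v ∈ Finset.Ico (2 * c + 1) (2 * c + e), h v :=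
    fun h => (Finset.sum_Ico_consecutive h (by omega) (by omega)).symm
  -- consequences of the lower bounds
  have hA : g 0 = f 0 → ∀ v, c < v → v ≤ 2 * c → T ≤ g v := by
    intro h0 v h1 h2
    have h3 := lbA he (by omega) hn q g hqg hqP
    have h4 := single_diff (Finset.Ico (c + 1) (2 * c + 1)) f g
      (fun x hx => hgf x (by rw [Finset.mem_Ico] at hx; omega))
      (Finset.mem_Ico.2 ⟨h1, by omega⟩)
    have h5 := hfT v h1
    rw [hLM g, ← hL, ← hM] at h3
    rw [hLM g, hLM f, ← hL, ← hM, sL, sM] at h4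
    rw [h0, hf0] at h3
    omega
  have hB : g c = f c → ∀ v, c + e ≤ v → v < 2 * c + e → T ≤ g v ∧
      f (2 * c + 1) ≤ g (2 * c + 1) + K := by
    intro h0 v h1 h2
    have h3 := lbB he (by omega) hn q g hqg hqP
    have h4 := single_diff (Finset.Ico (c + e) (2 * c + e)) f g
      (fun x hx => hgf x (by rw [Finset.mem_Ico] at hx; omega))
      (Finset.mem_Ico.2 ⟨h1, h2⟩)
    have h4' := single_diff (Finset.Ico (c + e) (2 * c + e)) f g
      (fun x hx => hgf x (by rw [Finset.mem_Ico] at hx; omega))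
      (v := 2 * c + 1) (Finset.mem_Ico.2 ⟨by omega, by omega⟩)
    have h5 := hfT v (by omega)
    rw [hMR g, ← hR, ← hM] at h3
    rw [hMR g, hMR f, ← hR, ← hM, sR, sM] at h4 h4'
    rw [h0, hfc] at h3
    constructor <;> omega
  rcases Nat.lt_or_ge c s with hcs | hcs
  swap
  · -- `e < s ≤ c`
    have g0 : g 0 = f 0 := by
      rw [hkeep 0 (by omega) (by omega), hu1 0 (by omega)]
    have gI : ∀ v, 1 ≤ v → v < e → g v = T := fun v h1 h2 => by
      rw [hkeep v (by omega) (by omega), hu1 v (by omega), hfI v h1 (by omega)]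
    have gR : ∀ v, 2 * c < v → v < n → g v = f v := fun v h1 h2 => by
      rw [hkeep v (by omega) (by omega), hu1 v (by omega)]
    have hRR : R = R0 := by
      rw [hR, ← sR]
      exact Finset.sum_congr rfl fun v hv => gR v (by rw [Finset.mem_Ico] at hv; omega)
        (by rw [Finset.mem_Ico] at hv; omega)
    have gc := hgf c (by omega)
    refine killE hinv he hec hn q g hqg gI (fun v h1 h2 => ?_) (by omega) (fun v h1 h2 => ?_)
      ?_ ?_ ?_ ?_ hqP
    · rw [← hfI v (by omega) h2]
      exact hgf v (by omega)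
    · rcases Nat.lt_or_ge (2 * c) v with h3 | h3
      · rw [gR v h3 h2]
        exact hfT' v h2
      · exact hA g0 v h1 h3
    · rw [g0]
      exact hfT' 0 (by omega)
    · rw [← hL, ← hM, g0, hf0]
      omega
    · rw [← hL, ← hR, g0, hf0, hRR]
      omega
    · rw [← hL, gR (2 * c + 1) (by omega) (by omega), hfr]
      omega
  rcases Nat.lt_or_ge s (c + e) with hce | hce
  · -- `c < s < c + e`
    have g0 : g 0 = f 0 := by
      rw [hkeep 0 (by omega) (by omega), hu1 0 (by omega)]
    have gc : g c = f c := by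
      rw [hkeep c (by omega) (by omega), hu1 c (by omega)]
    have gI : ∀ v, 1 ≤ v → v < c → g v = u v := fun v h1 h2 => hkeep v (by omega) (by omega)
    have gT : ∀ v, c < v → v < n → T ≤ g v := fun v h1 h2 => by
      rcases Nat.lt_or_ge (2 * c) v with h3 | h3
      · exact (hB gc v (by omega) (by omega)).1
      · exact hA g0 v h1 h3
    have hr1 := (hB gc (c + e) le_rfl (by omega)).2
    rcases Nat.le_total (g c + L) (g 0 + R) with hD | hD
    · refine killE hinv he hec hn q g hqg (fun v h1 h2 => ?_) (fun v h1 h2 => ?_) (by omega) gT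
        ?_ ?_ ?_ ?_ hqP
      · rw [gI v h1 (by omega), hu1 v (by omega), hfI v h1 (by omega)]
      · rw [← hfI v (by omega) h2]
        exact hgf v (by omega)
      · rw [g0]
        exact hfT' 0 (by omega)
      · rw [← hL, ← hM, g0, hf0]
        omega
      · rw [← hL, ← hR]
        exact hD
      · rw [← hL]
        rw [hfr] at hr1
        omega
    · refine killE' hinv he hec hn q g hqg (fun v h1 h2 => ?_) (fun v h1 h2 => ?_) (by omega) gT
        ?_ ?_ ?_ ?_ ?_ hqP
      · rw [gI v (by omega) h2, hu1 v (by omega), hfI v (by omega) h2]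
      · rw [← hfI v (by omega) (by omega)]
        exact hgf v (by omega)
      · rw [gc]
        exact hfT' c (by omega)
      · rw [← hM, ← hR, gc, hfc]
        omega
      · rw [← hL, ← hR]
        exact hD
      · rw [← hL, ← hR, gc, hfc]
        omega
      · rw [← hL]
        rw [hfr] at hr1
        omega
  · -- `c + e ≤ s < 2c`
    have gc : g c = f c := by
      rw [hkeep c (by omega) (by omega), hu1 c (by omega)]
    have gL : ∀ v, c < v → v < c + e → g v = f v := fun v h1 h2 => by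
      rw [hkeep v (by omega) (by omega), hu1 v (by omega)]
    have hLL : L = L0 := by
      rw [hL, ← sL]
      exact Finset.sum_congr rfl fun v hv => gL v (by rw [Finset.mem_Ico] at hv; omega)
        (by rw [Finset.mem_Ico] at hv; omega)
    have hr1 := (hB gc (c + e) le_rfl (by omega)).2
    have g0 := hgf 0 (by omega)
    refine killE' hinv he hec hn q g hqg (fun v h1 h2 => ?_) (fun v h1 h2 => ?_) (by omega)
      (fun v h1 h2 => ?_) ?_ ?_ ?_ ?_ ?_ hqP
    · rw [hkeep v (by omega) (by omega), hu1 v (by omega), hfI v (by omega) h2]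
    · rw [← hfI v (by omega) (by omega)]
      exact hgf v (by omega)
    · rcases Nat.lt_or_ge v (c + e) with h3 | h3
      · rw [gL v h1 h3]
        exact hfT' v h2
      · exact (hB gc v h3 (by omega)).1
    · rw [gc]
      exact hfT' c (by omega)
    · rw [← hM, ← hR, gc, hfc]
      omega
    · rw [← hL, ← hR, gc, hfc, hLL]
      omega
    · rw [← hL, ← hR, gc, hfc, hLL]
      omega
    · rw [← hL]
      rw [hfr] at hr1
      omega

/-- For `n = 2c + e`, `k = c + 1`, `2 ≤ e`, `2e ≤ c` no nonzero vector of nonnegative integers can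
be added to all P-positions. -/
theorem no_invariant (he : 2 ≤ e) (hec : 2 * e ≤ c) (hn : n = 2 * c + e) (z : ZMod n → ℕ)
    (hz : z ≠ 0) : ∃ p : ZMod n → ℕ, IsP n (c + 1) p ∧ ¬ IsP n (c + 1) (p + z) := by
  by_contra hcon
  push Not at hcon
  refine no_period (T := ∑ a, z a) he hec hn ?_ fun p hp => isP_add_trace hcon hp
  by_contra h
  apply hz
  funext x
  have h1 : ∑ a, z a = 0 := by omega
  exact (Finset.sum_eq_zero_iff.1 h1) x (Finset.mem_univ x)

end Pool.Agent.W_30d1b9s_h71
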