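import Pool.Agent.W_30d1b9_h50.Arc

/-!
# MP_30d1b9_co, Circular Nim: an upper bound for the entries of P-positions, merging of stacks
-/

namespace Pool.Agent.W_30d1b9s_h71

open Pool.Agent.W_30d1b9_h50

variable {n k : ℕ} [NeZero n]

/-- An upper bound for an entry of a P-position. -/
theorem le_of_isP (hk : 1 ≤ k) (i0 : ZMod n) (R : Finset (ZMod n)) (hi0 : i0 ∉ R)
    (hR : ∀ w : ZMod n, i0 ∉ window n k w → ∃ w' : ZMod n, i0 ∈ window n k w' ∧
      ∀ j ∈ R, j ∈ window n k w → j ∈ window n k w') (N : ℕ) :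
    ∀ q : ZMod n → ℕ, ∑ i, q i ≤ N → IsP n k q →
      q i0 ≤ ∑ j ∈ Finset.univ.filter (fun j => j ≠ i0 ∧ j ∉ R), q j := by
  induction N using Nat.strong_induction_on with
  | _ N ih =>
    intro q hN hq
    by_contra hcon
    push Not at hcon
    obtain ⟨S, hS⟩ : ∃ S, S = ∑ j ∈ Finset.univ.filter (fun j => j ≠ i0 ∧ j ∉ R), q j := ⟨_, rfl⟩
    rw [← hS] at hcon
    have hmem0 : i0 ∈ window n k i0 := ⟨0, by omega, by simp⟩
    obtain ⟨q1, hq1⟩ : ∃ q1 : ZMod n → ℕ, q1 = Function.update q i0 (q i0 - 1) := ⟨_, rfl⟩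
    have h10 : q1 i0 = q i0 - 1 := by rw [hq1, Function.update_self]
    have h11 : ∀ j, j ≠ i0 → q1 j = q j := fun j hj => by rw [hq1, Function.update_of_ne hj]
    have h1le : ∀ j, q1 j ≤ q j := fun j => by
      by_cases hj : j = i0
      · rw [hj, h10]
        omega
      · rw [h11 j hj]
    have hmv1 : Move n k q q1 := by
      refine ⟨i0, fun j hj => h11 j fun h => hj (h ▸ hmem0), h1le, fun he => ?_⟩
      have := congrFun he i0
      rw [h10] at this
      omega
    have hN1 : ¬ IsP n k q1 := (isP_iff q).1 hq q1 hmv1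
    rw [isP_iff] at hN1
    push Not at hN1
    obtain ⟨q2, hmv2, hq2⟩ := hN1
    have hlt1 := hmv1.lt
    have hlt2 := hmv2.lt
    have hle2 : ∀ j, q2 j ≤ q j := fun j => (hmv2.choose_spec.2.1 j).trans (h1le j)
    obtain ⟨w, hw1, hw2, hw3⟩ := hmv2
    have hne : q2 ≠ q := fun he => by
      rw [he] at hlt2
      omega
    by_cases hi : i0 ∈ window n k w
    · refine (isP_iff q).1 hq q2 ⟨w, fun j hj => ?_, hle2, hne⟩ hq2
      rw [hw1 j hj, h11 j fun h => hj (h ▸ hi)]
    · have e0 : q2 i0 = q i0 - 1 := by rw [hw1 i0 hi, h10]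
      have h2 := ih (∑ i, q2 i) (by omega) q2 le_rfl hq2
      have h3 : ∑ j ∈ Finset.univ.filter (fun j => j ≠ i0 ∧ j ∉ R), q2 j ≤ S := by
        rw [hS]
        exact Finset.sum_le_sum fun j _ => hle2 j
      have h4 : ∑ j ∈ Finset.univ.filter (fun j => j ≠ i0 ∧ j ∉ R), q2 j =
          ∑ j ∈ Finset.univ.filter (fun j => j ≠ i0 ∧ j ∉ R), q j := by
        rw [← hS]
        omega
      have h5 : ∀ j, j ≠ i0 → j ∉ R → q2 j = q j := by
        intro j hj hjR
        exact (Finset.sum_eq_sum_iff_of_le fun j _ => hle2 j).1 h4 j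
          (Finset.mem_filter.2 ⟨Finset.mem_univ _, hj, hjR⟩)
      obtain ⟨w', hw'1, hw'2⟩ := hR w hi
      refine (isP_iff q).1 hq q2 ⟨w', fun j hj => ?_, hle2, hne⟩ hq2
      have hj0 : j ≠ i0 := fun h => hj (h ▸ hw'1)
      by_cases hjR : j ∈ R
      · rw [hw1 j fun h => hj (hw'2 j hjR h), h11 j hj0]
      · exact h5 j hj0 hjR

open scoped Classical in
/-- Merging of stacks: positions with support in `S`, classes given by `F`. -/
theorem isP_merge {n' k' : ℕ} [NeZero n'] (S : Set (ZMod n)) (F : ZMod n → ZMod n')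
    (h1 : ∀ i : ZMod n, ∃ i' : ZMod n', ∀ x ∈ S, x ∈ window n k i → F x ∈ window n' k' i')
    (h2 : ∀ i' : ZMod n', ∃ i : ZMod n, ∀ x ∈ S, F x ∈ window n' k' i' → x ∈ window n k i)
    (N : ℕ) : ∀ p : ZMod n → ℕ, ∑ i, p i ≤ N → (∀ x, x ∉ S → p x = 0) →
      (IsP n k p ↔ IsP n' k' fun j => ∑ x ∈ Finset.univ.filter (fun x => F x = j), p x) := by
  induction N using Nat.strong_induction_on with
  | _ N ih =>
    intro p hN hp
    obtain ⟨st, hst⟩ : ∃ st : (ZMod n → ℕ) → ZMod n' → ℕ, ∀ f, st f =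
        fun j => ∑ x ∈ Finset.univ.filter (fun x => F x = j), f x := ⟨_, fun _ => rfl⟩
    have hst' : ∀ f j, st f j = ∑ x ∈ Finset.univ.filter (fun x => F x = j), f x := fun f j => by
      rw [hst]
    have htot : ∀ f : ZMod n → ℕ, ∑ j, st f j = ∑ x, f x := fun f => by
      simp_rw [hst']
      exact Finset.sum_fiberwise _ _ _
    simp only [← hst] at ih ⊢
    constructor
    · intro hP
      rw [isP_iff]
      intro r hmv hr
      obtain ⟨i', hi1, hi2, hi3⟩ := hmv
      obtain ⟨i, hi⟩ := h2 i'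
      have hch : ∀ j : ZMod n', ∃ h : ZMod n → ℕ, (∀ x, h x ≤ p x) ∧
          ∑ x ∈ Finset.univ.filter (fun x => F x = j), h x = r j ∧
          (r j = st p j → h = p) := by
        intro j
        by_cases hj : r j = st p j
        · exact ⟨p, fun _ => le_rfl, by rw [hj, hst'], fun _ => rfl⟩
        · obtain ⟨h, g1, g2⟩ := exists_part (Finset.univ.filter (fun x => F x = j)) p (r j)
            (by rw [← hst']; exact hi2 j)
          exact ⟨h, g1, g2, fun h => absurd h hj⟩
      choose Q hQ1 hQ2 hQ3 using hch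
      obtain ⟨q, hq⟩ : ∃ q : ZMod n → ℕ, ∀ x, q x = Q (F x) x := ⟨_, fun _ => rfl⟩
      have hle : ∀ x, q x ≤ p x := fun x => by
        rw [hq]
        exact hQ1 _ x
      have hqr : st q = r := by
        funext j
        rw [hst', ← hQ2 j]
        refine Finset.sum_congr rfl fun x hx => ?_
        rw [hq, (Finset.mem_filter.1 hx).2]
      have hne : q ≠ p := fun h => hi3 (by rw [← hqr, h])
      have hmv : Move n k p q := by
        refine ⟨i, fun x hx => ?_, hle, hne⟩
        by_cases hxS : x ∈ S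
        · have h4 : F x ∉ window n' k' i' := fun h => hx (hi x hxS h)
          rw [hq, hQ3 (F x) (hi1 _ h4)]
        · have := hle x
          rw [hp x hxS] at this ⊢
          omega
      have hlt := hmv.lt
      refine (isP_iff p).1 hP q hmv ((ih (∑ x, q x) (by omega) q le_rfl fun x hx => ?_).2 ?_)
      · have := hle x
        rw [hp x hx] at this
        omega
      · rw [hqr]
        exact hr
    · intro hP
      rw [isP_iff]
      intro q hmv hq
      have hlt := hmv.lt
      obtain ⟨i, hi1, hi2, hi3⟩ := hmv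
      obtain ⟨i', hi'⟩ := h1 i
      have hq0 : ∀ x, x ∉ S → q x = 0 := fun x hx => by
        have := hi2 x
        rw [hp x hx] at this
        omega
      refine (isP_iff (st p)).1 hP (st q) ⟨i', fun j hj => ?_, fun j => ?_, fun he => ?_⟩
        ((ih (∑ x, q x) (by omega) q le_rfl hq0).1 hq)
      · rw [hst', hst']
        refine Finset.sum_congr rfl fun x hx => ?_
        have hFx := (Finset.mem_filter.1 hx).2
        by_cases hxS : x ∈ S
        · exact hi1 x fun h => hj (hFx ▸ hi' x hxS h)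
        · rw [hq0 x hxS, hp x hxS]
      · rw [hst', hst']
        exact Finset.sum_le_sum fun x _ => hi2 x
      · have h4 := htot q
        rw [he, htot p] at h4
        omega

end Pool.Agent.W_30d1b9s_h71
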