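import Pool.Agent.W_30d1b9s_h71.Zero2

/-!
# MP_30d1b9_co, Circular Nim: positions which are not P when `T` is a period
-/

namespace Pool.Agent.W_30d1b9s_h71

open Pool.Agent.W_30d1b9_h50

variable {n c e T : ℕ} [NeZero n]

theorem sum_const_Ico (a b T : ℕ) (f g : ℕ → ℕ) (h : ∀ v, a ≤ v → v < b → g v + T = f v) :
    ∑ v ∈ Finset.Ico a b, g v + (b - a) * T = ∑ v ∈ Finset.Ico a b, f v := by
  rw [← Finset.sum_congr rfl fun v hv => h v (Finset.mem_Ico.1 hv).1 (Finset.mem_Ico.1 hv).2,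
    Finset.sum_add_distrib, Finset.sum_const, Nat.card_Ico, smul_eq_mul]

/-- the positions `T + y`, `y` zero on the interior -/
theorem top_isP (hinv : ∀ p : ZMod n → ℕ, IsP n (c + 1) p → IsP n (c + 1) fun x => p x + T)
    (he : 2 ≤ e) (hec : e ≤ c) (hn : n = 2 * c + e)
    (h : ℕ → ℕ) (hI : ∀ v, 1 ≤ v → v < c → h v = T) (hT : ∀ v, v < n → T ≤ h v)
    (ha : h 0 + (c - 1) * T = ∑ v ∈ Finset.Ico (c + e) (2 * c + 1), h v +
      ∑ v ∈ Finset.Ico (c + 1) (c + e), h v)
    (hb : h c + (c - 1) * T = ∑ v ∈ Finset.Ico (c + e) (2 * c + 1), h v +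
      ∑ v ∈ Finset.Ico (2 * c + 1) (2 * c + e), h v)
    (hr : ∑ v ∈ Finset.Ico (c + 1) (c + e), h v + T ≤ h (2 * c + 1) + (e - 1) * T) :
    IsP n (c + 1) fun x => h x.val := by
  obtain ⟨y, hy⟩ : ∃ y : ℕ → ℕ, ∀ v, y v = h v - T := ⟨_, fun _ => rfl⟩
  have hyT : ∀ v, v < n → y v + T = h v := fun v hv => by
    rw [hy]
    exact Nat.sub_add_cancel (hT v hv)
  have s1 := sum_const_Ico (c + 1) (c + e) T h y fun v _ h2 => hyT v (by omega)
  have s2 := sum_const_Ico (c + e) (2 * c + 1) T h y fun v _ h2 => hyT v (by omega)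
  have s3 := sum_const_Ico (2 * c + 1) (2 * c + e) T h y fun v _ h2 => hyT v (by omega)
  have e1 : c + e - (c + 1) = e - 1 := by omega
  have e2 : 2 * c + 1 - (c + e) = c - e + 1 := by omega
  have e3 : 2 * c + e - (2 * c + 1) = e - 1 := by omega
  rw [e1] at s1
  rw [e2] at s2
  rw [e3] at s3
  have y0 := hyT 0 (by omega)
  have yc := hyT c (by omega)
  have y1 := hyT (2 * c + 1) (by omega)
  have e4 : (c - e + 1) * T + (e - 1) * T = (c - 1) * T + T := by
    rw [← add_mul, show c - e + 1 + (e - 1) = c - 1 + 1 by omega, add_mul, one_mul]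
  have key := zero_isP (n := n) he hec hn y (fun v h1 h2 => by rw [hy, hI v h1 h2, Nat.sub_self])
    (by omega) (by omega) (by omega)
  have := hinv _ key
  have e5 : (fun x : ZMod n => y x.val + T) = fun x => h x.val :=
    funext fun x => hyT _ (ZMod.val_lt x)
  rw [e5] at this
  exact this

theorem killE (hinv : ∀ p : ZMod n → ℕ, IsP n (c + 1) p → IsP n (c + 1) fun x => p x + T)
    (he : 2 ≤ e) (hec : 2 * e ≤ c) (hn : n = 2 * c + e) (q : ZMod n → ℕ) (g : ℕ → ℕ)
    (hqg : ∀ x : ZMod n, q x = g x.val) (h1 : ∀ v, 1 ≤ v → v < e → g v = T)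
    (h2 : ∀ v, e ≤ v → v < c → g v ≤ T) (h3 : g e < T) (h4 : ∀ v, c < v → v < n → T ≤ g v)
    (h5 : T ≤ g 0)
    (h6 : ∑ v ∈ Finset.Ico (c + e) (2 * c + 1), g v + ∑ v ∈ Finset.Ico (c + 1) (c + e), g v ≤
      g 0 + (c - 1) * T)
    (h7 : g c + ∑ v ∈ Finset.Ico (c + 1) (c + e), g v ≤
      g 0 + ∑ v ∈ Finset.Ico (2 * c + 1) (2 * c + e), g v)
    (h8 : ∑ v ∈ Finset.Ico (c + 1) (c + e), g v + T ≤ g (2 * c + 1) + (e - 1) * T) :
    ¬ IsP n (c + 1) q := by
  obtain ⟨L, hL⟩ : ∃ L, L = ∑ v ∈ Finset.Ico (c + 1) (c + e), g v := ⟨_, rfl⟩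
  obtain ⟨M, hM⟩ : ∃ M, M = ∑ v ∈ Finset.Ico (c + e) (2 * c + 1), g v := ⟨_, rfl⟩
  obtain ⟨R, hR⟩ : ∃ R, R = ∑ v ∈ Finset.Ico (2 * c + 1) (2 * c + e), g v := ⟨_, rfl⟩
  rw [← hM, ← hL] at h6
  rw [← hL, ← hR] at h7
  rw [← hL] at h8
  have hRr : g (2 * c + 1) + (e - 2) * T ≤ R := by
    rw [hR, Finset.sum_eq_sum_Ico_succ_bot (by omega)]
    have g1 : ∑ v ∈ Finset.Ico (2 * c + 1 + 1) (2 * c + e), T ≤
        ∑ v ∈ Finset.Ico (2 * c + 1 + 1) (2 * c + e), g v :=
      Finset.sum_le_sum fun v hv => by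
        rw [Finset.mem_Ico] at hv
        exact h4 v (by omega) (by omega)
    rw [Finset.sum_const, Nat.card_Ico, smul_eq_mul,
      show 2 * c + e - (2 * c + 1 + 1) = e - 2 by omega] at g1
    omega
  have e0 : (e - 1) * T = (e - 2) * T + T := by
    rw [show e - 1 = e - 2 + 1 by omega, add_mul, one_mul]
  obtain ⟨h, hh⟩ : ∃ h : ℕ → ℕ, ∀ v, h v = if v = 0 then g 0 else if v < c then T else
      if v = c then g 0 + R - L else if v = c + e then g (c + e) + (g 0 + (c - 1) * T - M - L)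
      else g v := ⟨_, fun _ => rfl⟩
  have hh0 : h 0 = g 0 := by rw [hh, if_pos rfl]
  have hhI : ∀ v, 1 ≤ v → v < c → h v = T := fun v g1 g2 => by
    rw [hh, if_neg (by omega), if_pos g2]
  have hhc : h c = g 0 + R - L := by
    rw [hh, if_neg (by omega), if_neg (by omega), if_pos rfl]
  have hhM : h (c + e) = g (c + e) + (g 0 + (c - 1) * T - M - L) := by
    rw [hh, if_neg (by omega), if_neg (by omega), if_neg (by omega), if_pos rfl]
  have hho : ∀ v, c < v → v ≠ c + e → h v = g v := fun v g1 g2 => by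
    rw [hh, if_neg (by omega), if_neg (by omega), if_neg (by omega), if_neg g2]
  have sL : ∑ v ∈ Finset.Ico (c + 1) (c + e), h v = L := by
    rw [hL]
    refine Finset.sum_congr rfl fun v hv => ?_
    rw [Finset.mem_Ico] at hv
    exact hho v (by omega) (by omega)
  have sR : ∑ v ∈ Finset.Ico (2 * c + 1) (2 * c + e), h v = R := by
    rw [hR]
    refine Finset.sum_congr rfl fun v hv => ?_
    rw [Finset.mem_Ico] at hv
    exact hho v (by omega) (by omega)
  have sM : ∑ v ∈ Finset.Ico (c + e) (2 * c + 1), h v + L = g 0 + (c - 1) * T := by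
    have g1 : ∑ v ∈ Finset.Ico (c + e + 1) (2 * c + 1), h v =
        ∑ v ∈ Finset.Ico (c + e + 1) (2 * c + 1), g v := by
      refine Finset.sum_congr rfl fun v hv => ?_
      rw [Finset.mem_Ico] at hv
      exact hho v (by omega) (by omega)
    rw [Finset.sum_eq_sum_Ico_succ_bot (by omega), g1, hhM]
    rw [Finset.sum_eq_sum_Ico_succ_bot (by omega)] at hM
    omega
  have hP := top_isP hinv he (by omega) hn h hhI (fun v hv => by
      rcases Nat.eq_zero_or_pos v with g1 | g1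
      · rw [g1, hh0]
        exact h5
      rcases Nat.lt_or_ge v c with g2 | g2
      · rw [hhI v g1 g2]
      rcases eq_or_lt_of_le g2 with g3 | g3
      · rw [← g3, hhc]
        omega
      by_cases g4 : v = c + e
      · rw [g4, hhM]
        have := h4 (c + e) (by omega) (by omega)
        omega
      · rw [hho v g3 g4]
        exact h4 v g3 hv)
    (by rw [hh0, sL]; omega) (by rw [hhc, sR]; omega)
    (by rw [sL, hho (2 * c + 1) (by omega) (by omega)]; omega)
  refine (isP_iff _).1 hP q ?_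
  refine ⟨(e : ZMod n), fun x hx => ?_, fun x => ?_, fun he' => ?_⟩
  · rw [not_mem_window (g := c + e - 1) (by omega), val_cast (by omega)] at hx
    rw [hqg]
    beta_reduce
    have hxn := ZMod.val_lt x
    rcases Nat.eq_zero_or_pos x.val with g1 | g1
    · rw [g1, hh0]
    rcases Nat.lt_or_ge x.val e with g2 | g2
    · rw [hhI _ g1 (by omega), h1 _ g1 g2]
    · rw [hho _ (by omega) (by omega)]
  · rw [hqg]
    beta_reduce
    have hxn := ZMod.val_lt x
    rcases Nat.eq_zero_or_pos x.val with g1 | g1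
    · rw [g1, hh0]
    rcases Nat.lt_or_ge x.val c with g2 | g2
    · rw [hhI _ g1 g2]
      rcases Nat.lt_or_ge x.val e with g3 | g3
      · rw [h1 _ g1 g3]
      · exact h2 _ g3 g2
    rcases eq_or_lt_of_le g2 with g3 | g3
    · rw [← g3, hhc]
      omega
    by_cases g4 : x.val = c + e
    · rw [g4, hhM]
      omega
    · rw [hho _ g3 g4]
  · have g1 := congrFun he' (e : ZMod n)
    rw [hqg, val_cast (by omega), hhI e (by omega) (by omega)] at g1
    omega

theorem killE' (hinv : ∀ p : ZMod n → ℕ, IsP n (c + 1) p → IsP n (c + 1) fun x => p x + T)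
    (he : 2 ≤ e) (hec : 2 * e ≤ c) (hn : n = 2 * c + e) (q : ZMod n → ℕ) (g : ℕ → ℕ)
    (hqg : ∀ x : ZMod n, q x = g x.val) (h1 : ∀ v, c - e < v → v < c → g v = T)
    (h2 : ∀ v, 1 ≤ v → v ≤ c - e → g v ≤ T) (h3 : g (c - e) < T)
    (h4 : ∀ v, c < v → v < n → T ≤ g v) (h5 : T ≤ g c)
    (h6 : ∑ v ∈ Finset.Ico (c + e) (2 * c + 1), g v +
      ∑ v ∈ Finset.Ico (2 * c + 1) (2 * c + e), g v ≤ g c + (c - 1) * T)
    (h7 : g 0 + ∑ v ∈ Finset.Ico (2 * c + 1) (2 * c + e), g v ≤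
      g c + ∑ v ∈ Finset.Ico (c + 1) (c + e), g v)
    (h7' : T + ∑ v ∈ Finset.Ico (2 * c + 1) (2 * c + e), g v ≤
      g c + ∑ v ∈ Finset.Ico (c + 1) (c + e), g v)
    (h8 : ∑ v ∈ Finset.Ico (c + 1) (c + e), g v + T ≤ g (2 * c + 1) + (e - 1) * T) :
    ¬ IsP n (c + 1) q := by
  obtain ⟨L, hL⟩ : ∃ L, L = ∑ v ∈ Finset.Ico (c + 1) (c + e), g v := ⟨_, rfl⟩
  obtain ⟨M, hM⟩ : ∃ M, M = ∑ v ∈ Finset.Ico (c + e) (2 * c + 1), g v := ⟨_, rfl⟩
  obtain ⟨R, hR⟩ : ∃ R, R = ∑ v ∈ Finset.Ico (2 * c + 1) (2 * c + e), g v := ⟨_, rfl⟩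
  rw [← hM, ← hR] at h6
  rw [← hL, ← hR] at h7 h7'
  rw [← hL] at h8
  obtain ⟨h, hh⟩ : ∃ h : ℕ → ℕ, ∀ v, h v = if v = 0 then g c + L - R else if v < c then T else
      if v = 2 * c then g (2 * c) + (g c + (c - 1) * T - M - R)
      else g v := ⟨_, fun _ => rfl⟩
  have hh0 : h 0 = g c + L - R := by rw [hh, if_pos rfl]
  have hhI : ∀ v, 1 ≤ v → v < c → h v = T := fun v g1 g2 => by
    rw [hh, if_neg (by omega), if_pos g2]
  have hhM : h (2 * c) = g (2 * c) + (g c + (c - 1) * T - M - R) := by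
    rw [hh, if_neg (by omega), if_neg (by omega), if_pos rfl]
  have hho : ∀ v, c ≤ v → v ≠ 2 * c → h v = g v := fun v g1 g2 => by
    rw [hh, if_neg (by omega), if_neg (by omega), if_neg g2]
  have sL : ∑ v ∈ Finset.Ico (c + 1) (c + e), h v = L := by
    rw [hL]
    refine Finset.sum_congr rfl fun v hv => ?_
    rw [Finset.mem_Ico] at hv
    exact hho v (by omega) (by omega)
  have sR : ∑ v ∈ Finset.Ico (2 * c + 1) (2 * c + e), h v = R := by
    rw [hR]
    refine Finset.sum_congr rfl fun v hv => ?_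
    rw [Finset.mem_Ico] at hv
    exact hho v (by omega) (by omega)
  have sM : ∑ v ∈ Finset.Ico (c + e) (2 * c + 1), h v + R = g c + (c - 1) * T := by
    have g1 : ∑ v ∈ Finset.Ico (c + e) (2 * c), h v =
        ∑ v ∈ Finset.Ico (c + e) (2 * c), g v := by
      refine Finset.sum_congr rfl fun v hv => ?_
      rw [Finset.mem_Ico] at hv
      exact hho v (by omega) (by omega)
    rw [Finset.sum_Ico_succ_top (by omega), g1, hhM]
    rw [Finset.sum_Ico_succ_top (by omega)] at hM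
    omega
  have hP := top_isP hinv he (by omega) hn h hhI (fun v hv => by
      rcases Nat.eq_zero_or_pos v with g1 | g1
      · rw [g1, hh0]
        omega
      rcases Nat.lt_or_ge v c with g2 | g2
      · rw [hhI v g1 g2]
      by_cases g4 : v = 2 * c
      · rw [g4, hhM]
        have := h4 (2 * c) (by omega) (by omega)
        omega
      · rw [hho v g2 g4]
        rcases eq_or_lt_of_le g2 with g3 | g3
        · rw [← g3]
          exact h5
        · exact h4 v g3 hv)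
    (by rw [hh0, sL]; omega) (by rw [hho c le_rfl (by omega), sR]; omega)
    (by rw [sL, hho (2 * c + 1) (by omega) (by omega)]; omega)
  refine (isP_iff _).1 hP q ?_
  refine ⟨((2 * c : ℕ) : ZMod n), fun x hx => ?_, fun x => ?_, fun he' => ?_⟩
  · rw [not_mem_window (g := c + e - 1) (by omega), val_cast (by omega)] at hx
    rw [hqg]
    beta_reduce
    have hxn := ZMod.val_lt x
    rcases Nat.lt_or_ge x.val c with g2 | g2
    · rw [hhI _ (by omega) g2, h1 _ (by omega) g2]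
    · rw [hho _ g2 (by omega)]
  · rw [hqg]
    beta_reduce
    have hxn := ZMod.val_lt x
    rcases Nat.eq_zero_or_pos x.val with g1 | g1
    · rw [g1, hh0]
      omega
    rcases Nat.lt_or_ge x.val c with g2 | g2
    · rw [hhI _ g1 g2]
      rcases Nat.lt_or_ge (c - e) x.val with g3 | g3
      · rw [h1 _ g3 g2]
      · exact h2 _ g1 g3
    by_cases g4 : x.val = 2 * c
    · rw [g4, hhM]
      omega
    · rw [hho _ g2 g4]
  · have g1 := congrFun he' ((c - e : ℕ) : ZMod n)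
    rw [hqg, val_cast (by omega), hhI (c - e) (by omega) (by omega)] at g1
    omega

end Pool.Agent.W_30d1b9s_h71
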