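import Pool.Agent.W_30d1b9_h71.Bridge
import Pool.Agent.W_30d1b9s_h71.Gen

/-!
# MP_30d1b9_co, Circular Nim: balanced positions with an empty arc
-/

namespace Pool.Agent.W_30d1b9s_h71

open Pool.Agent.W_30d1b9_h50 Pool.Agent.W_30d1b9_h71

theorem bal_zero {e L M R S : ℤ} {P : ℤ → ℤ} (he : 2 ≤ e) (hs : ∀ x, P x ≤ P (x + 1))
    (hper : ∀ x, P (x + 3 * e) = P x + S)
    (h1 : ∀ x, 1 ≤ x → x ≤ e → P x = P 0 + (M + L))
    (h2 : P (e + 1) = P e + (M + R)) (h3 : P (2 * e) = P (e + 1) + L)
    (h4 : P (2 * e + 1) = P (2 * e) + M) (h5 : P (3 * e) = P (2 * e + 1) + R)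
    (h6 : P (2 * e + 1) + L ≤ P (2 * e + 2)) (hL : 0 ≤ L) (hM : 0 ≤ M) (hRL : L ≤ R) :
    Bal (3 * e) e P := by
  have mono : ∀ x y, x ≤ y → P x ≤ P y := fun x y h => mono_of_step hs h
  have he1 := h1 e (by omega) le_rfl
  have h11 := h1 1 le_rfl (by omega)
  obtain ⟨f, hf⟩ : ∃ f : ℤ → ℤ, ∀ x, f x = if x ≤ e then 0 else if x ≤ 2 * e + 1 then R - L else
      R - L + (P x - P (2 * e + 1) - L) := ⟨_, fun _ => rfl⟩
  have hf1 : ∀ x, x ≤ e → f x = 0 := fun x h => by rw [hf, if_pos h]
  have hf2 : ∀ x, e < x → x ≤ 2 * e + 1 → f x = R - L := fun x h h' => by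
    rw [hf, if_neg (by omega), if_pos h']
  have hf3 : ∀ x, 2 * e + 1 < x → f x = R - L + (P x - P (2 * e + 1) - L) := fun x h => by
    rw [hf, if_neg (by omega), if_neg (by omega)]
  obtain ⟨D, hD1, hD2⟩ := pack_ext (n := 3 * e) (c := e) (m := M + L) (S := S) (by omega)
    (by omega) (by omega) hper 0 f
    (fun x hx1 hx2 => by
      rcases lt_trichotomy x e with h | h | h
      · rw [hf1 x h.le, hf1 (x + 1) (by omega)]
        have := hs x
        omega
      · rw [hf1 x h.le, hf2 (x + 1) (by omega) (by omega), h]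
        omega
      · rcases lt_trichotomy x (2 * e + 1) with h' | h' | h'
        · rw [hf2 x h (by omega), hf2 (x + 1) (by omega) (by omega)]
          have := hs x
          omega
        · rw [hf2 x h (by omega), hf3 (x + 1) (by omega), h']
          have e2 : 2 * e + 1 + 1 = 2 * e + 2 := by ring
          rw [e2]
          omega
        · rw [hf3 x h', hf3 (x + 1) (by omega)]
          have := hs x
          omega)
    (fun x hx1 hx2 hx3 => by
      rcases eq_or_lt_of_le hx1 with h | h
      · rw [← h, zero_add, hf1 e le_rfl, hf1 0 (by omega)]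
        omega
      · rcases le_or_gt x e with h' | h'
        · rw [hf1 x h', hf2 (x + e) (by omega) (by omega)]
          have g1 := h1 x (by omega) h'
          have g2 := mono (e + 1) (x + e) (by omega)
          omega
        · rcases le_or_gt (x + e) (2 * e + 1) with g | g
          · rw [hf2 x h' (by omega), hf2 (x + e) (by omega) g]
            obtain rfl : x = e + 1 := by omega
            have e2 : e + 1 + e = 2 * e + 1 := by ring
            rw [e2]
            omega
          · rw [hf2 x h' (by omega), hf3 (x + e) g]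
            have g2 := mono x (2 * e) (by omega)
            omega)
    (fun x hx1 hx2 hx3 => by
      have g0 : f (x + e - 3 * e) = 0 := hf1 _ (by omega)
      have g1 : f (0 + 3 * e) = 2 * (R - L) := by
        rw [zero_add, hf3 (3 * e) (by omega)]
        omega
      rw [g0, g1, hf1 0 (by omega)]
      have g2 := hper (x + e - 3 * e)
      rw [sub_add_cancel] at g2
      have g3 := hper 0
      rw [zero_add] at g3
      rcases eq_or_lt_of_le (show 2 * e + 1 ≤ x by omega) with h | h
      · rw [hf2 x (by omega) (by omega), g2, ← h]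
        have e2 : 2 * e + 1 + e - 3 * e = 1 := by ring
        rw [e2]
        omega
      · rw [hf3 x h, g2]
        have g4 := h1 (x + e - 3 * e) (by omega) (by omega)
        omega)
  have hT : f (0 + 3 * e) - f 0 = 2 * (R - L) := by
    rw [zero_add, hf3 (3 * e) (by omega), hf1 0 (by omega)]
    omega
  rw [hT] at hD1
  refine ⟨M + L, R - L, 0, e + 1, D, fun x => ?_, ?_, ?_, ⟨hD1, fun E T' hE => ?_⟩, by omega,
    by omega, ?_⟩
  · have g1 := hD1.win x
    have g2 := mono_of_step hD1.step (show x ≤ x + e by omega)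
    omega
  · rw [zero_add]
    omega
  · have e2 : e + 1 + e = 2 * e + 1 := by ring
    rw [e2]
    omega
  · have monoE : ∀ x y, x ≤ y → E x ≤ E y := fun x y h => mono_of_step hE.step h
    have g0 := hE.win 0
    have g1 := hE.win 1
    have g2 := hE.win (e + 1)
    have g3 := hE.win (2 * e)
    have g4 := hE.per 0
    rw [zero_add] at g0 g4
    have e1 : (1 : ℤ) + e = e + 1 := by ring
    have e2 : e + 1 + e = 2 * e + 1 := by ring
    have e3 : 2 * e + e = 3 * e := by ring
    rw [e1] at g1
    rw [e2] at g2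
    rw [e3] at g3
    have m1 := monoE 0 1 (by omega)
    have m2 := monoE 1 e (by omega)
    have m3 := monoE (e + 1) (2 * e) (by omega)
    have m4 := monoE (2 * e) (2 * e + 1) (by omega)
    omega
  · rw [hD2 (e + 1) (by omega) (by omega), hD2 0 le_rfl (by omega), hf1 0 (by omega),
      hf2 (e + 1) (by omega) (by omega)]
    omega

end Pool.Agent.W_30d1b9s_h71
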