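import Pool.Agent.W_30d1b9s_h71.Zero

/-!
# MP_30d1b9_co, Circular Nim: P-positions of `CN(2c+e,c+1)` with `c-1` consecutive empty stacks
-/

namespace Pool.Agent.W_30d1b9s_h71

open Pool.Agent.W_30d1b9_h50 Pool.Agent.W_30d1b9_h71

/-- the class of the stack `v` -/
def G (c e v : ℕ) : ℕ :=
  if v < c then 0 else if v ≤ c + e then v - c + e else if v ≤ 2 * c then 2 * e else v - 2 * c + 2 * e

/-- the first stack which belongs to a class `≥ y` -/
def H (c e y : ℕ) : ℕ :=
  if y = 0 then 0 else if y ≤ e then c else if y ≤ 2 * e then y - e + c else y - 2 * e + 2 * c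

theorem H_zero {c e : ℕ} : H c e 0 = 0 := by
  unfold H
  rw [if_pos rfl]

theorem H_one {c e y : ℕ} (h1 : 1 ≤ y) (h2 : y ≤ e) : H c e y = c := by
  unfold H
  rw [if_neg (by omega), if_pos h2]

theorem H_two {c e y : ℕ} (he : 2 ≤ e) (h1 : e ≤ y) (h2 : y ≤ 2 * e) : H c e y = y - e + c := by
  rcases eq_or_lt_of_le h1 with h | h
  · rw [← h, H_one (by omega) le_rfl]
    omega
  · unfold H
    rw [if_neg (by omega), if_neg (by omega), if_pos h2]

theorem H_three {c e y : ℕ} (h1 : 2 * e < y) : H c e y = y - 2 * e + 2 * c := by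
  unfold H
  rw [if_neg (by omega), if_neg (by omega), if_neg (by omega)]

theorem H_mono {c e y : ℕ} (he : 2 ≤ e) (hec : e ≤ c) : H c e y ≤ H c e (y + 1) := by
  rcases Nat.eq_zero_or_pos y with h | h
  · rw [h, H_zero]
    exact Nat.zero_le _
  rcases Nat.lt_or_ge y e with h' | h'
  · rw [H_one h h'.le, H_one (by omega) h']
  rcases Nat.lt_or_ge y (2 * e) with g | g
  · rw [H_two he h' g.le, H_two he (by omega) g]
    omega
  rcases eq_or_lt_of_le g with g' | g'
  · rw [H_two he h' g'.symm.le, H_three (by omega)]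
    omega
  · rw [H_three g', H_three (by omega)]
    omega

theorem H_le {c e y : ℕ} (he : 2 ≤ e) (hec : e ≤ c) (hy : y < 3 * e) :
    H c e (y + 1) ≤ 2 * c + e := by
  rcases Nat.lt_or_ge y e with h' | h'
  · rw [H_one (by omega) h']
    omega
  rcases Nat.lt_or_ge y (2 * e) with g | g
  · rw [H_two he (by omega) g]
    omega
  · rw [H_three (by omega)]
    omega

theorem G_eq {c e v y : ℕ} (he : 2 ≤ e) (hec : e ≤ c) (hv : v < 2 * c + e) (hy : y < 3 * e) :
    G c e v = y ↔ H c e y ≤ v ∧ v < H c e (y + 1) := by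
  rcases Nat.eq_zero_or_pos y with h | h
  · rw [h, H_zero, H_one (by omega) (by omega)]
    unfold G
    split_ifs <;> omega
  rcases Nat.lt_or_ge y e with h' | h'
  · rw [H_one h h'.le, H_one (by omega) h']
    unfold G
    split_ifs <;> omega
  rcases Nat.lt_or_ge y (2 * e) with g | g
  · rw [H_two he h' g.le, H_two he (by omega) g]
    unfold G
    split_ifs <;> omega
  rcases eq_or_lt_of_le g with g' | g'
  · rw [H_two he h' g'.symm.le, H_three (by omega)]
    unfold G
    split_ifs <;> omega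
  · rw [H_three g', H_three (by omega)]
    unfold G
    split_ifs <;> omega

theorem G_lt {c e v : ℕ} (he : 2 ≤ e) (hec : e ≤ c) (hv : v < 2 * c + e) : G c e v < 3 * e := by
  unfold G
  split_ifs <;> omega

theorem mem_window' {n k g : ℕ} [NeZero n] (hg : g + k = n) (i j : ZMod n) :
    j ∈ window n k i ↔ ¬ ((j.val < i.val ∧ i.val ≤ j.val + g) ∨ i.val + k ≤ j.val) := by
  rw [← not_mem_window hg, not_not]

theorem zero_isP {n c e : ℕ} [NeZero n] (he : 2 ≤ e) (hec : e ≤ c) (hn : n = 2 * c + e)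
    (f : ℕ → ℕ) (hz : ∀ v, 1 ≤ v → v < c → f v = 0)
    (ha : f 0 = ∑ v ∈ Finset.Ico (c + e) (2 * c + 1), f v + ∑ v ∈ Finset.Ico (c + 1) (c + e), f v)
    (hb : f c = ∑ v ∈ Finset.Ico (c + e) (2 * c + 1), f v +
      ∑ v ∈ Finset.Ico (2 * c + 1) (2 * c + e), f v)
    (hr : ∑ v ∈ Finset.Ico (c + 1) (c + e), f v ≤ f (2 * c + 1)) :
    IsP n (c + 1) fun x => f x.val := by
  classical
  haveI : NeZero (3 * e) := ⟨by omega⟩
  obtain ⟨F, hF⟩ : ∃ F : ZMod n → ZMod (3 * e), ∀ x, F x = ((G c e x.val : ℕ) : ZMod (3 * e)) :=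
    ⟨_, fun _ => rfl⟩
  have hxn : ∀ x : ZMod n, x.val < 2 * c + e := fun x => by
    rw [← hn]
    exact ZMod.val_lt x
  have hFv : ∀ x, (F x).val = G c e x.val := fun x => by
    rw [hF, ZMod.val_cast_of_lt (G_lt he hec (hxn x))]
  have hm := isP_merge (n := n) (k := c + 1) (n' := 3 * e) (k' := e + 1)
    {x | x.val = 0 ∨ c ≤ x.val} F ?_ ?_ _ (fun x => f x.val) le_rfl ?_
  · rw [hm, isP_iff_bal (n := 3 * e) (c := e) (by omega) le_rfl (by omega) _ _ le_rfl]
    obtain ⟨p, hp⟩ : ∃ p : ZMod (3 * e) → ℕ, ∀ j, p j =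
      ∑ x ∈ Finset.univ.filter (fun x => F x = j), f x.val := ⟨_, fun _ => rfl⟩
    rw [show (fun j => ∑ x ∈ Finset.univ.filter (fun x => F x = j), f x.val) = p from
      funext fun j => (hp j).symm]
    have hpj : ∀ y, y < 3 * e → p ((y : ℕ) : ZMod (3 * e)) =
        ∑ v ∈ Finset.Ico (H c e y) (H c e (y + 1)), f v := by
      intro y hy
      rw [hp]
      refine Finset.sum_bij (fun x _ => x.val) (fun x hx => ?_) (fun x _ x' _ h => ?_)
        (fun v hv => ?_) (fun x _ => rfl)
      · have h1 := congrArg ZMod.val (Finset.mem_filter.1 hx).2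
        rw [hFv, ZMod.val_cast_of_lt hy] at h1
        rw [Finset.mem_Ico]
        exact (G_eq he hec (hxn x) hy).1 h1
      · exact ZMod.val_injective _ h
      · rw [Finset.mem_Ico] at hv
        have hvn : v < 2 * c + e := by
          exact hv.2.trans_le (H_le he hec hy)
        refine ⟨(v : ZMod n), Finset.mem_filter.2 ⟨Finset.mem_univ _, ?_⟩, ?_⟩
        · rw [hF, ZMod.val_cast_of_lt (by omega), (G_eq he hec hvn hy).2 hv]
        · rw [ZMod.val_cast_of_lt (by omega)]
    have hc : ∀ y : ℕ, y ≤ 3 * e → cum p (y : ℤ) = ∑ v ∈ Finset.range (H c e y), (f v : ℤ) := by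
      intro y
      induction y with
      | zero =>
        intro _
        rw [Nat.cast_zero, cum_zero]
        unfold H
        simp
      | succ y ih =>
        intro hy
        have h1 : ((y : ℤ) : ZMod (3 * e)) = ((y : ℕ) : ZMod (3 * e)) := by simp
        rw [Nat.cast_add, Nat.cast_one, cum_succ, ih (by omega), h1, hpj y (by omega)]
        have h2 : H c e y ≤ H c e (y + 1) := H_mono he hec
        rw [← Finset.sum_range_add_sum_Ico _ h2]
        push_cast
        ring
    obtain ⟨s, hs⟩ : ∃ s : ℕ → ℤ, ∀ x, s x = ∑ v ∈ Finset.range x, (f v : ℤ) := ⟨_, fun _ => rfl⟩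
    simp only [← hs] at hc
    have hI : ∀ x y, x ≤ y → s y = s x + ((∑ v ∈ Finset.Ico x y, f v : ℕ) : ℤ) := by
      intro x y hxy
      rw [hs, hs, ← Finset.sum_range_add_sum_Ico _ hxy]
      push_cast
      ring
    have hsucc : ∀ x, s (x + 1) = s x + f x := by
      intro x
      rw [hs, hs, Finset.sum_range_succ]
    have hs0 : s 0 = 0 := by rw [hs]; simp
    have hs1 : s 1 = f 0 := by rw [hsucc 0, hs0, zero_add]
    have hsc : s c = f 0 := by
      rw [hI 1 c (by omega), hs1, Finset.sum_eq_zero fun v hv => ?_]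
      · simp
      · rw [Finset.mem_Ico] at hv
        exact hz v hv.1 hv.2
    have hP : ∀ (x : ℤ) (y : ℕ), x = (y : ℤ) → y ≤ 3 * e → cum p x = s (H c e y) := by
      rintro x y rfl hy
      exact hc y hy
    obtain ⟨L, hL⟩ : ∃ L, L = ∑ v ∈ Finset.Ico (c + 1) (c + e), f v := ⟨_, rfl⟩
    obtain ⟨M, hM⟩ : ∃ M, M = ∑ v ∈ Finset.Ico (c + e) (2 * c + 1), f v := ⟨_, rfl⟩
    obtain ⟨R, hR⟩ : ∃ R, R = ∑ v ∈ Finset.Ico (2 * c + 1) (2 * c + e), f v := ⟨_, rfl⟩
    rw [← hM, ← hL] at ha
    rw [← hM, ← hR] at hb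
    rw [← hL] at hr
    have k1 := hsucc c
    have k2 := hI (c + 1) (c + e) (by omega)
    have k3 := hI (c + e) (2 * c + 1) (by omega)
    have k4 := hI (2 * c + 1) (2 * c + e) (by omega)
    have k5 := hsucc (2 * c + 1)
    rw [← hL] at k2
    rw [← hM] at k3
    rw [← hR] at k4
    have p0 := hP 0 0 (by simp) (by omega)
    have pe := hP (e : ℤ) e rfl (by omega)
    have pe1 := hP ((e : ℤ) + 1) (e + 1) (by push_cast; ring) (by omega)
    have p2e := hP (2 * (e : ℤ)) (2 * e) (by push_cast; ring) (by omega)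
    have p2e1 := hP (2 * (e : ℤ) + 1) (2 * e + 1) (by push_cast; ring) (by omega)
    have p2e2 := hP (2 * (e : ℤ) + 2) (2 * e + 2) (by push_cast; ring) (by omega)
    have p3e := hP (3 * (e : ℤ)) (3 * e) (by push_cast; ring) le_rfl
    have q0 : H c e 0 = 0 := by unfold H; rw [if_pos rfl]
    have qx : ∀ y, 1 ≤ y → y ≤ e → H c e y = c := fun y h1 h2 => by
      unfold H; rw [if_neg (by omega), if_pos h2]
    have qe1 : H c e (e + 1) = c + 1 := by
      unfold H; rw [if_neg (by omega), if_neg (by omega), if_pos (by omega)]; omega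
    have q2e : H c e (2 * e) = c + e := by
      unfold H; rw [if_neg (by omega), if_neg (by omega), if_pos (by omega)]; omega
    have q2e1 : H c e (2 * e + 1) = 2 * c + 1 := by
      unfold H; rw [if_neg (by omega), if_neg (by omega), if_neg (by omega)]; omega
    have q2e2 : H c e (2 * e + 2) = 2 * c + 1 + 1 := by
      unfold H; rw [if_neg (by omega), if_neg (by omega), if_neg (by omega)]; omega
    have q3e : H c e (3 * e) = 2 * c + e := by
      unfold H; rw [if_neg (by omega), if_neg (by omega), if_neg (by omega)]; omega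
    rw [q0, hs0] at p0
    rw [qx e (by omega) le_rfl] at pe
    rw [qe1] at pe1
    rw [q2e] at p2e
    rw [q2e1] at p2e1
    rw [q2e2] at p2e2
    rw [q3e] at p3e
    have hLR : L ≤ R := by
      have h1 : f (2 * c + 1) ≤ R := by
        rw [hR]
        exact Finset.single_le_sum (f := f) (fun _ _ => Nat.zero_le _)
          (Finset.mem_Ico.2 ⟨le_rfl, by omega⟩)
      omega
    have key := bal_zero (e := (e : ℤ)) (L := (L : ℤ)) (M := (M : ℤ)) (R := (R : ℤ))
      (S := cum p ((3 * e : ℕ) : ℤ)) (P := cum p) (by omega) (cum_step p)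
      (fun x => by
        have h1 := cum_per p x
        have h2 : ((3 * e : ℕ) : ℤ) = 3 * (e : ℤ) := by push_cast; ring
        rw [h2] at h1 ⊢
        exact h1)
      (fun x hx1 hx2 => by
        obtain ⟨y, rfl⟩ := Int.eq_ofNat_of_zero_le (show 0 ≤ x by omega)
        rw [hP (y : ℤ) y rfl (by omega), qx y (by omega) (by omega), p0]
        omega)
      (by rw [pe1, pe]; omega) (by rw [p2e, pe1]; omega) (by rw [p2e1, p2e]; omega)
      (by rw [p3e, p2e1]; omega) (by rw [p2e1, p2e2]; omega) (by omega) (by omega) (by omega)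
    have h2 : ((3 * e : ℕ) : ℤ) = 3 * (e : ℤ) := by push_cast; ring
    rw [h2]
    exact key
  · intro i
    obtain ⟨s, hs⟩ : ∃ s : ℕ, s = if i.val = 0 then 0 else if i.val ≤ c then e else
      if i.val ≤ c + e then i.val - c + e else 2 * e := ⟨_, rfl⟩
    have hi := hxn i
    have hs3 : s < 3 * e := by
      rw [hs]
      split_ifs <;> omega
    refine ⟨(s : ZMod (3 * e)), fun x hxS hx => ?_⟩
    have hx' := hxn x
    rw [mem_window' (g := c + e - 1) (by omega)] at hx
    rw [mem_window' (g := 2 * e - 1) (by omega), hFv, ZMod.val_cast_of_lt hs3]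
    simp only [Set.mem_setOf_eq] at hxS
    rw [hs]
    unfold G
    split_ifs <;> omega
  · intro i'
    obtain ⟨s, hs⟩ : ∃ s : ℕ, s = if i'.val = 0 then 0 else if i'.val ≤ e then c else
      if i'.val ≤ 2 * e then i'.val - e + c else c + e := ⟨_, rfl⟩
    have hi := ZMod.val_lt i'
    have hsn : s < n := by
      rw [hs]
      split_ifs <;> omega
    refine ⟨(s : ZMod n), fun x hxS hx => ?_⟩
    have hx' := hxn x
    rw [mem_window' (g := 2 * e - 1) (by omega), hFv] at hx
    rw [mem_window' (g := c + e - 1) (by omega), ZMod.val_cast_of_lt hsn]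
    simp only [Set.mem_setOf_eq] at hxS
    rw [hs]
    unfold G at hx
    split_ifs at hx ⊢ <;> omega
  · intro x hx
    simp only [Set.mem_setOf_eq, not_or, not_le] at hx
    exact hz x.val (by omega) hx.2

end Pool.Agent.W_30d1b9s_h71
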